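import Pool.Agent.H17.BRB.UPR

/-!
# BRB row UPO
-/

set_option autoImplicit false

namespace Pool.BRB

lemma nn_box_finite (d : ℤ × ℤ) (n : ℕ) : {v : ℤ × ℤ | nn v d ≤ n}.Finite := by
  apply Set.Finite.subset
    (Finset.finite_toSet (Finset.Icc (d.1 - (n : ℤ)) (d.1 + n) ×ˢ Finset.Icc (d.2 - (n : ℤ)) (d.2 + n)))
  intro v hv
  simp only [Set.mem_setOf_eq, nn] at hv
  simp only [Finset.coe_product, Finset.coe_Icc, Set.mem_prod, Set.mem_Icc]
  omega

lemma uu_pot (M : Board) (d : ℤ × ℤ) (n : ℕ) : Pot M d (uu M d n) := by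
  refine ⟨uu_at M d n, uu_bd M d n, ?_, ?_⟩
  · apply (nn_box_finite d n).subset
    intro v hv
    by_contra h
    exact hv (uu_far M d n v (by simpa using h))
  · intro v hv
    rw [uu_lap M d n v hv]
    have := uu_mono M d n v
    linarith

theorem UPO : UPOStmt := fun M d => by
  refine ⟨uu_pot M d, fun n => ?_⟩
  unfold Lap
  apply Finset.sum_le_sum
  intro D _
  have h1 := uu_mono M d n (step M d D)
  rw [uu_at, uu_at]
  linarith

end Pool.BRB
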