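import Pool.Agent.H74.BRB.Stmts

/-!
# BRB rows UPR, UPO
-/

set_option autoImplicit false

namespace Pool.BRB

lemma uu_bd (M : Board) (d : ℤ × ℤ) (n : ℕ) : ∀ v, 0 ≤ uu M d n v ∧ uu M d n v ≤ 1 := by
  induction n with
  | zero =>
    intro v
    simp only [uu]
    split_ifs <;> norm_num
  | succ n ih =>
    intro v
    simp only [uu]
    split_ifs
    · norm_num
    · have h0 : 0 ≤ ∑ D : Dir, uu M d n (step M v D) := Finset.sum_nonneg fun D _ => (ih _).1
      have h1 : ∑ D : Dir, uu M d n (step M v D) ≤ 4 := by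
        calc ∑ D : Dir, uu M d n (step M v D) ≤ ∑ _D : Dir, (1 : ℝ) :=
              Finset.sum_le_sum fun D _ => (ih _).2
          _ = 4 := by
            rw [Finset.sum_const, Finset.card_univ]
            have : Fintype.card Dir = 4 := rfl
            rw [this]; norm_num
      constructor <;> linarith

lemma nn_step (M : Board) (v d : ℤ × ℤ) (D : Dir) : nn v d ≤ nn (step M v D) d + 1 := by
  unfold step
  split_ifs
  · cases D <;> simp only [vec, nn, Prod.fst_add, Prod.snd_add] <;> omega
  · omega

lemma uu_far (M : Board) (d : ℤ × ℤ) (n : ℕ) : ∀ v, n < nn v d → uu M d n v = 1 := by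
  induction n with
  | zero =>
    intro v hv
    have : v ≠ d := by
      rintro rfl
      simp [nn] at hv
    simp [uu, this]
  | succ n ih =>
    intro v hv
    have hvd : v ≠ d := by
      rintro rfl
      simp [nn] at hv
    simp only [uu, hvd, if_false]
    have : ∀ D : Dir, uu M d n (step M v D) = 1 := fun D => by
      apply ih
      have := nn_step M v d D
      omega
    simp only [this, Finset.sum_const, Finset.card_univ]
    have : Fintype.card Dir = 4 := rfl
    rw [this]; norm_num

lemma uu_mono (M : Board) (d : ℤ × ℤ) (n : ℕ) : ∀ v, uu M d (n + 1) v ≤ uu M d n v := by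
  induction n with
  | zero =>
    intro v
    have h := uu_bd M d 1 v
    by_cases hv : v = d
    · simp [uu, hv]
    · have : uu M d 0 v = 1 := by simp [uu, hv]
      rw [this]
      exact h.2
  | succ n ih =>
    intro v
    rw [uu, uu]
    split_ifs
    · exact le_refl _
    · have : ∑ D : Dir, uu M d (n + 1) (step M v D) ≤ ∑ D : Dir, uu M d n (step M v D) :=
        Finset.sum_le_sum fun D _ => ih _
      linarith

lemma uu_lap (M : Board) (d : ℤ × ℤ) (n : ℕ) (v : ℤ × ℤ) (hv : v ≠ d) :
    Lap M (uu M d n) v = 4 * (uu M d (n + 1) v - uu M d n v) := by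
  have h : uu M d (n + 1) v = (1 / 4) * ∑ D : Dir, uu M d n (step M v D) := by
    simp [uu, hv]
  rw [h, Lap, Finset.sum_sub_distrib, Finset.sum_const, Finset.card_univ]
  have : Fintype.card Dir = 4 := rfl
  rw [this, nsmul_eq_mul]
  push_cast
  ring

lemma uu_at (M : Board) (d : ℤ × ℤ) (n : ℕ) : uu M d n d = 0 := by
  cases n <;> simp [uu]

theorem UPR : UPRStmt := fun M d =>
  ⟨uu_bd M d, uu_at M d, uu_far M d, uu_mono M d, uu_lap M d⟩

end Pool.BRB
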